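import Pool.Agent.LBT.Out

set_option autoImplicit false

/-!
# Primes and a prescribed parity of the number of prime factors in 6-tuples

Let `h 0, ..., h 5` be distinct natural numbers which do not cover all residue classes modulo any
prime, and let `e` be `0` or `1`. For some `c, δ > 0` and all large `x`, at least `c x/(log x)^6` of the
`n ≤ x` are such that all prime factors of the six numbers `n + h i` exceed `x^δ` and some `n + h j`,
`j ≠ 0`, is prime while `Ω(n + h 0) = e (mod 2)` or another `n + h i`, `i ≠ 0`, is prime too.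
-/

namespace Pool.Agent.Results.MP_e39192_nt.SixForms

open Pool.Agent.LBT

theorem result (h : Fin 6 → ℕ) (hi : Function.Injective h)
    (adm : ∀ p : ℕ, p.Prime → ∃ a : ℕ, ∀ i, ¬ p ∣ a + h i) (e : ℕ) :
    ∃ c δ : ℝ, 0 < c ∧ 0 < δ ∧ ∀ᶠ x : ℕ in Filter.atTop,
      c * (x : ℝ) / Real.log (x : ℝ) ^ 6 ≤
        (Set.ncard {n : ℕ | n ≤ x ∧
          (∀ i, ∀ p : ℕ, p.Prime → p ∣ n + h i → (x : ℝ) ^ δ < (p : ℝ)) ∧
          ∃ j, j ≠ 0 ∧ (n + h j).Prime ∧
            (ArithmeticFunction.cardFactors (n + h 0) % 2 = e % 2 ∨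
              ∃ i, i ≠ 0 ∧ i ≠ j ∧ (n + h i).Prime)} : ℝ) := by
  obtain ⟨c, δ, hc, hδ, H⟩ := core h hi adm e
  refine ⟨c, δ, hc, hδ, H.mono fun x hx => hx.trans (le_of_eq ?_)⟩
  rw [← Set.ncard_coe_finset]
  congr 2
  ext n
  simp only [GS, Finset.coe_filter, Finset.mem_range, Set.mem_ofPred_eq, Nat.lt_succ_iff]

end Pool.Agent.Results.MP_e39192_nt.SixForms
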